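import Pool.Agent.H7.TF.Targets

/-!
# MP_7a929c_al : module B1 (removing hole corners)
-/

set_option autoImplicit false

namespace Pool.Agent.H47.TF

open Equiv Pool.Agent.H7.TF

variable {P : Type} [Group P] {D : Type}

theorem ais (f : Perm D) (x : D) : f (f⁻¹ x) = x := f.apply_symm_apply x

theorem ias (f : Perm D) (x : D) : f⁻¹ (f x) = x := f.symm_apply_apply x

/-- relator corners are closed under the face permutation -/
theorem kind_pow_ne {R : List (Rel P)} {σ θ : Perm D} {h : D → P} {ty : D → Fin 3}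
    {kind : D → Option (ℕ × Bool × ℕ)} (hp : IsPic R σ θ h ty kind) {z : D}
    (hz : kind z ≠ none) (i : ℕ) : kind (((σ * θ) ^ i) z) ≠ none := by
  induction i with
  | zero => simpa using hz
  | succ i ih =>
    obtain ⟨⟨j, s, k⟩, hk⟩ := Option.ne_none_iff_exists'.1 ih
    obtain ⟨r, _, _, h3, _⟩ := hp.rel _ j s k hk
    have : ((σ * θ) ^ (i + 1)) z = σ (θ (((σ * θ) ^ i) z)) := by
      rw [pow_succ', Perm.mul_apply, Perm.mul_apply]
    rw [this, h3]
    simp

/-- hole corners are closed under the face permutation -/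
theorem hole_next {R : List (Rel P)} {σ θ : Perm D} {h : D → P} {ty : D → Fin 3}
    {kind : D → Option (ℕ × Bool × ℕ)} (hp : IsPic R σ θ h ty kind) {z : D}
    (hz : kind z = none) : kind ((σ * θ) z) = none := by
  by_contra hne
  obtain ⟨⟨j, s, k⟩, hk⟩ := Option.ne_none_iff_exists'.1 hne
  obtain ⟨r, _, _, _, h4⟩ := hp.rel _ j s k hk
  have hL : r.word.length = (r.word.length - 1) + 1 := by
    simp [Rel.word]
  have h5 : ((σ * θ) ^ (r.word.length - 1)) ((σ * θ) z) = z := by
    rw [hL, pow_succ', Perm.mul_apply] at h4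
    exact (σ * θ).injective h4
  have h6 := kind_pow_ne hp hne (r.word.length - 1)
  rw [h5] at h6
  exact h6 hz

theorem hole_pow {R : List (Rel P)} {σ θ : Perm D} {h : D → P} {ty : D → Fin 3}
    {kind : D → Option (ℕ × Bool × ℕ)} (hp : IsPic R σ θ h ty kind) {z : D}
    (hz : kind z = none) (i : ℕ) : kind (((σ * θ) ^ i) z) = none := by
  induction i with
  | zero => simpa using hz
  | succ i ih =>
    rw [pow_succ', Perm.mul_apply]
    exact hole_next hp ih

/-- changing the permutations away from the relator corners -/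
theorem isPic_transfer {R : List (Rel P)} {σ θ σ' θ' : Perm D} {h : D → P} {ty : D → Fin 3}
    {kind : D → Option (ℕ × Bool × ℕ)} (hp : IsPic R σ θ h ty kind) (hpl : Planar σ' θ')
    (hθ : ∀ d, h (θ' d) = h d) (hty : ∀ d, ty (σ' d) = ty d)
    (hrel : ∀ z, kind z ≠ none → (σ' * θ') z = (σ * θ) z ∧ lab σ' h z = lab σ h z) :
    IsPic R σ' θ' h ty kind := by
  refine ⟨hpl, hθ, hty, ?_⟩
  intro d j s k hk
  have hne : kind d ≠ none := by rw [hk]; simp
  obtain ⟨r, h1, h2, h3, h4⟩ := hp.rel d j s k hk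
  refine ⟨r, h1, ?_, ?_, ?_⟩
  · rw [(hrel d hne).2]; exact h2
  · have : σ' (θ' d) = σ (θ d) := (hrel d hne).1
    rw [this]; exact h3
  · have key : ∀ i, ((σ' * θ') ^ i) d = ((σ * θ) ^ i) d := by
      intro i
      induction i with
      | zero => simp
      | succ i ih =>
        rw [pow_succ', pow_succ', Perm.mul_apply, Perm.mul_apply, ih]
        exact (hrel _ (kind_pow_ne hp hne i)).1
    rw [key]; exact h4

/-- the face permutation away from `d` -/
theorem face_eq {R : List (Rel P)} {σ θ : Perm D} [DecidableEq D] {h : D → P} {ty : D → Fin 3}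
    {kind : D → Option (ℕ × Bool × ℕ)} (hp : IsPic R σ θ h ty kind) {d z : D}
    (hd : kind d = none) (hz : kind z ≠ none) :
    (swap d ((σ * θ) d) * (σ * θ)) z = (σ * θ) z := by
  rw [Perm.mul_apply]
  apply swap_apply_of_ne_of_ne
  · intro h1
    have := kind_pow_ne hp hz 1
    rw [pow_one, h1] at this
    exact this hd
  · intro h1
    have := (σ * θ).injective h1
    rw [this] at hz
    exact hz hd

theorem B1 (hA3 : T_A3) (hA4 : T_A4) : T_B1 := by
  intro P _ R D _ _ σ θ h ty kind d hp hd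
  have htyi : ∀ z, ty (σ⁻¹ z) = ty z := by
    intro z
    have := hp.tyσ (σ⁻¹ z)
    rw [← this, ais]
  refine ⟨?_, ?_, ?_⟩
  · -- (a)
    intro hφ hh
    -- first move
    have step1 : Planar (σ * swap d (σ⁻¹ d)) (swap d (σ⁻¹ d) * θ) ∧
        conn (σ * swap d (σ⁻¹ d)) (swap d (σ⁻¹ d) * θ) ≤ conn σ θ := by
      by_cases hdd : d = σ⁻¹ d
      · rw [← hdd, swap_self]
        exact ⟨hp.planar, le_rfl⟩
      · exact (hA3 D σ θ d (σ⁻¹ d) hp.planar hdd).1
          (Or.inl ⟨-1, by simp⟩)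
    set σ' := σ * swap d (σ⁻¹ d) with hσ'
    set θ1 := swap d (σ⁻¹ d) * θ with hθ1
    have hfix : σ' d = d := by
      rw [hσ', Perm.mul_apply, swap_apply_left, ais]
    have hprod : σ' * θ1 = σ * θ := by
      rw [hσ', hθ1, mul_assoc, ← mul_assoc (swap d (σ⁻¹ d)), swap_mul_self, one_mul]
    have step2 := (hA4 D σ' θ1 d step1.1).1 hfix
    have hprod2 : σ' * (swap d (θ1 d) * θ1) = swap d ((σ * θ) d) * (σ * θ) := by
      have e : σ' (θ1 d) = (σ * θ) d := by rw [← hprod]; rfl
      rw [← mul_assoc, mul_swap_eq_swap_mul, hfix, e, mul_assoc, hprod]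
    have hfixθ : (swap d (θ1 d) * θ1) d = d := by
      rw [Perm.mul_apply, swap_apply_right]
    have hlab : ∀ y, y ≠ d → lab σ' h y = lab σ h y := by
      intro y hy
      unfold lab
      congr 2
      have : σ'⁻¹ y = swap d (σ⁻¹ d) (σ⁻¹ y) := by
        rw [hσ', mul_inv_rev, swap_inv, Perm.mul_apply]
      rw [this]
      by_cases h1 : σ⁻¹ y = d
      · rw [h1, swap_apply_left, hh]
      · rw [swap_apply_of_ne_of_ne h1 (fun h2 => hy (σ⁻¹.injective h2))]
    have hθ1h : ∀ z, h (θ1 z) = h z := by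
      intro z
      rw [hθ1, Perm.mul_apply]
      rcases eq_or_ne (θ z) d with h1 | h1
      · rw [h1, swap_apply_left, hh, ← h1, hp.hθ]
      rcases eq_or_ne (θ z) (σ⁻¹ d) with h2 | h2
      · rw [h2, swap_apply_right, ← hh, ← h2, hp.hθ]
      · rw [swap_apply_of_ne_of_ne h1 h2, hp.hθ]
    refine ⟨σ', swap d (θ1 d) * θ1, ?_, hprod2, hfix, hfixθ, hlab, step2.2.trans step1.2⟩
    refine isPic_transfer hp step2.1 ?_ ?_ ?_
    · intro z
      rw [Perm.mul_apply]
      rcases eq_or_ne (θ1 z) d with h1 | h1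
      · rw [h1, swap_apply_left, hθ1h, ← hθ1h z, h1]
      rcases eq_or_ne (θ1 z) (θ1 d) with h2 | h2
      · rw [h2, swap_apply_right, θ1.injective h2]
      · rw [swap_apply_of_ne_of_ne h1 h2, hθ1h]
    · intro z
      rw [hσ', Perm.mul_apply, hp.tyσ]
      rcases eq_or_ne z d with h1 | h1
      · rw [h1, swap_apply_left, htyi]
      rcases eq_or_ne z (σ⁻¹ d) with h2 | h2
      · rw [h2, swap_apply_right, htyi]
      · rw [swap_apply_of_ne_of_ne h1 h2]
    · intro z hz
      rw [hprod2]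
      exact ⟨face_eq hp hd hz, hlab z (fun h1 => hz (h1 ▸ hd))⟩
  · -- (b)
    intro hφ hty
    have step1 : Planar (σ * swap (θ d) d) (swap (θ d) d * θ) ∧
        conn (σ * swap (θ d) d) (swap (θ d) d * θ) ≤ conn σ θ := by
      by_cases hdd : θ d = d
      · rw [hdd, swap_self]
        exact ⟨hp.planar, le_rfl⟩
      · exact (hA3 D σ θ (θ d) d hp.planar hdd).1
          (Or.inr ⟨-1, by simp⟩)
    set σ1 := σ * swap (θ d) d with hσ1
    set θ' := swap (θ d) d * θ with hθ'
    have hfixθ : θ' d = d := by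
      rw [hθ', Perm.mul_apply, swap_apply_left]
    have hσ1d : σ1 d = (σ * θ) d := by
      rw [hσ1, Perm.mul_apply, swap_apply_right, Perm.mul_apply]
    have hprod : σ1 * θ' = σ * θ := by
      rw [hσ1, hθ', mul_assoc, ← mul_assoc (swap (θ d) d), swap_mul_self, one_mul]
    have step2 := (hA4 D σ1 θ' d step1.1).2.1 hfixθ
    have hprod2 : σ1 * swap d (σ1⁻¹ d) * θ' = swap d ((σ * θ) d) * (σ * θ) := by
      rw [mul_swap_eq_swap_mul, ais, hσ1d, mul_assoc, hprod, swap_comm]
    have hfix : (σ1 * swap d (σ1⁻¹ d)) d = d := by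
      rw [Perm.mul_apply, swap_apply_left, ais]
    have htyθ : ty (θ d) = ty d := by
      rw [← hp.tyσ (θ d), ← Perm.mul_apply, hty]
    have hinv : ∀ y, (σ1 * swap d (σ1⁻¹ d))⁻¹ y = swap d (σ1⁻¹ d) (σ1⁻¹ y) := by
      intro y
      rw [mul_inv_rev, swap_inv, Perm.mul_apply]
    have hinv1 : ∀ y, σ1⁻¹ y = swap (θ d) d (σ⁻¹ y) := by
      intro y
      rw [hσ1, mul_inv_rev, swap_inv, Perm.mul_apply]
    have hinvh : ∀ y, h (σ1⁻¹ y) = h (σ⁻¹ y) := by
      intro y
      rw [hinv1]
      rcases eq_or_ne (σ⁻¹ y) (θ d) with h1 | h1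
      · rw [h1, swap_apply_left, hp.hθ]
      rcases eq_or_ne (σ⁻¹ y) d with h2 | h2
      · rw [h2, swap_apply_right, hp.hθ]
      · rw [swap_apply_of_ne_of_ne h1 h2]
    have hlab : ∀ y, y ≠ d → y ≠ (σ * θ) d →
        lab (σ1 * swap d (σ1⁻¹ d)) h y = lab σ h y := by
      intro y hy hy2
      unfold lab
      congr 2
      rw [hinv, swap_apply_of_ne_of_ne, hinvh]
      · intro h1
        apply hy2
        rw [← hσ1d, ← h1, ais]
      · exact fun h1 => hy (σ1⁻¹.injective h1)
    refine ⟨σ1 * swap d (σ1⁻¹ d), θ', ?_, hprod2, hfix, hfixθ, hlab, ?_, step2.2.trans step1.2⟩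
    · refine isPic_transfer hp step2.1 ?_ ?_ ?_
      · intro z
        rw [hθ', Perm.mul_apply]
        rcases eq_or_ne (θ z) d with h1 | h1
        · rw [h1, swap_apply_right, hp.hθ, ← h1, hp.hθ]
        rcases eq_or_ne (θ z) (θ d) with h2 | h2
        · rw [h2, swap_apply_left, θ.injective h2]
        · rw [swap_apply_of_ne_of_ne h2 h1, hp.hθ]
      · have hty1 : ∀ z, ty (σ1 z) = ty z := by
          intro z
          rw [hσ1, Perm.mul_apply, hp.tyσ]
          rcases eq_or_ne z d with h1 | h1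
          · rw [h1, swap_apply_right, htyθ]
          rcases eq_or_ne z (θ d) with h2 | h2
          · rw [h2, swap_apply_left, htyθ]
          · rw [swap_apply_of_ne_of_ne h2 h1]
        have hty1i : ∀ z, ty (σ1⁻¹ z) = ty z := by
          intro z
          rw [← hty1 (σ1⁻¹ z), ais]
        intro z
        rw [Perm.mul_apply, hty1]
        rcases eq_or_ne z d with h1 | h1
        · rw [h1, swap_apply_left, hty1i]
        rcases eq_or_ne z (σ1⁻¹ d) with h2 | h2
        · rw [h2, swap_apply_right, hty1i]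
        · rw [swap_apply_of_ne_of_ne h1 h2]
      · intro z hz
        rw [hprod2]
        refine ⟨face_eq hp hd hz, hlab z (fun h1 => hz (h1 ▸ hd)) (fun h1 => ?_)⟩
        rw [h1] at hz
        exact hz (hole_next hp hd)
    · unfold lab
      rw [hinv]
      have h1 : σ1⁻¹ ((σ * θ) d) = d := by rw [← hσ1d, ias]
      rw [h1, swap_apply_left, hinvh]
      have h2 : σ⁻¹ ((σ * θ) d) = θ d := by rw [Perm.mul_apply, ias]
      rw [h2, hp.hθ]
      group
  · -- (c)
    intro hφ
    have hθd : θ d = σ⁻¹ d := by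
      rw [Perm.eq_inv_iff_eq]; exact hφ
    have step := (hA4 D σ θ d hp.planar).2.2
    have hprod : (σ * swap d (σ⁻¹ d)) * (swap d (θ d) * θ) = σ * θ := by
      rw [hθd, mul_assoc, ← mul_assoc (swap d (σ⁻¹ d)), swap_mul_self, one_mul]
    have hfix : (σ * swap d (σ⁻¹ d)) d = d := by
      rw [Perm.mul_apply, swap_apply_left, ais]
    have hfixθ : (swap d (θ d) * θ) d = d := by
      rw [Perm.mul_apply, swap_apply_right]
    have hh : h (σ⁻¹ d) = h d := by rw [← hθd, hp.hθ]
    have hlab : ∀ y, y ≠ d → lab (σ * swap d (σ⁻¹ d)) h y = lab σ h y := by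
      intro y hy
      unfold lab
      congr 2
      have : (σ * swap d (σ⁻¹ d))⁻¹ y = swap d (σ⁻¹ d) (σ⁻¹ y) := by
        rw [mul_inv_rev, swap_inv, Perm.mul_apply]
      rw [this]
      by_cases h1 : σ⁻¹ y = d
      · rw [h1, swap_apply_left, hh]
      · rw [swap_apply_of_ne_of_ne h1 (fun h2 => hy (σ⁻¹.injective h2))]
    refine ⟨σ * swap d (σ⁻¹ d), swap d (θ d) * θ, ?_, hprod, hfix, hfixθ, hlab, step.2⟩
    refine isPic_transfer hp step.1 ?_ ?_ ?_
    · intro z
      rw [Perm.mul_apply]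
      rcases eq_or_ne (θ z) d with h1 | h1
      · rw [h1, swap_apply_left, hp.hθ, ← h1, hp.hθ]
      rcases eq_or_ne (θ z) (θ d) with h2 | h2
      · rw [h2, swap_apply_right, θ.injective h2]
      · rw [swap_apply_of_ne_of_ne h1 h2, hp.hθ]
    · intro z
      rw [Perm.mul_apply, hp.tyσ]
      rcases eq_or_ne z d with h1 | h1
      · rw [h1, swap_apply_left, htyi]
      rcases eq_or_ne z (σ⁻¹ d) with h2 | h2
      · rw [h2, swap_apply_right, htyi]
      · rw [swap_apply_of_ne_of_ne h1 h2]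
    · intro z hz
      rw [hprod]
      exact ⟨rfl, hlab z (fun h1 => hz (h1 ▸ hd))⟩

end Pool.Agent.H47.TF
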