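import Pool.Agent.H47.TF.Orb

/-!
# MP_7a929c_al : module B2 (killing a hole whose word is trivial in the free product)
-/

set_option autoImplicit false

namespace Pool.Agent.H47.TF

open Equiv Pool.Agent.H7.TF

/-! ## Products over `List.range` and `cycProd` -/

section cyc

variable {D : Type} {G : Type} [Group G]

theorem range_prod_succ (f : ℕ → G) (n : ℕ) :
    ((List.range (n + 1)).map f).prod = ((List.range n).map f).prod * f n := by
  rw [List.range_succ, List.map_append, List.prod_append, List.map_singleton, List.prod_singleton]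

theorem range_prod_succ' (f : ℕ → G) (n : ℕ) :
    ((List.range (n + 1)).map f).prod = f 0 * ((List.range n).map (fun i => f (i + 1))).prod := by
  rw [List.range_succ_eq_map, List.map_cons, List.prod_cons, List.map_map]
  rfl

theorem minPer_pow (φ : Perm D) (d : D) : (φ ^ (Function.minimalPeriod φ d)) d = d := by
  have := Function.iterate_minimalPeriod (f := φ) (x := d)
  rwa [Perm.iterate_eq_pow] at this

theorem minPer_ne (φ : Perm D) (d : D) (i : ℕ) (h0 : 0 < i)
    (hi : i < Function.minimalPeriod φ d) : (φ ^ i) d ≠ d := by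
  intro h1
  have h2 : Function.IsPeriodicPt φ i d := by
    show φ^[i] d = d
    rw [Perm.iterate_eq_pow]; exact h1
  have := h2.minimalPeriod_le h0
  omega

theorem minPer_eq {φ : Perm D} {d : D} {n : ℕ} (h0 : 0 < n) (h1 : (φ ^ n) d = d)
    (h2 : ∀ i, 0 < i → i < n → (φ ^ i) d ≠ d) : Function.minimalPeriod φ d = n := by
  have h3 : Function.IsPeriodicPt φ n d := by
    show φ^[n] d = d
    rw [Perm.iterate_eq_pow]; exact h1
  have h4 := h3.minimalPeriod_le h0
  have h5 := h3.minimalPeriod_pos h0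
  rcases h4.lt_or_eq with h6 | h6
  · exact absurd (minPer_pow φ d) (h2 _ h5 h6)
  · exact h6

theorem minPer_pos [Finite D] (φ : Perm D) (d : D) : 0 < Function.minimalPeriod φ d := by
  have := Fintype.ofFinite D
  classical
  have h3 : Function.IsPeriodicPt φ (orderOf φ) d := by
    show φ^[orderOf φ] d = d
    rw [Perm.iterate_eq_pow, pow_orderOf_eq_one]; rfl
  exact h3.minimalPeriod_pos (orderOf_pos φ)

theorem minPer_apply [Finite D] (φ : Perm D) (d : D) :
    Function.minimalPeriod φ (φ d) = Function.minimalPeriod φ d := by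
  refine minPer_eq (minPer_pos φ d) ?_ ?_
  · rw [← Perm.mul_apply, ← pow_succ, pow_succ', Perm.mul_apply, minPer_pow]
  · intro i h0 hi h1
    rw [← Perm.mul_apply, ← pow_succ, pow_succ', Perm.mul_apply] at h1
    exact minPer_ne φ d i h0 hi (φ.injective h1)

theorem cycProd_apply [Finite D] (φ : Perm D) (x : D → G) (d : D) :
    cycProd φ x (φ d) = (x d)⁻¹ * cycProd φ x d * x d := by
  unfold cycProd
  rw [minPer_apply]
  obtain ⟨n, hn⟩ : ∃ n, Function.minimalPeriod φ d = n + 1 :=
    ⟨_, (Nat.succ_pred_eq_of_pos (minPer_pos φ d)).symm⟩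
  have hper := minPer_pow φ d
  rw [hn] at hper ⊢
  rw [range_prod_succ, range_prod_succ']
  have h1 : ∀ i, (φ ^ i) (φ d) = (φ ^ (i + 1)) d := by
    intro i; rw [pow_succ, Perm.mul_apply]
  simp only [h1, hper, pow_zero, Perm.one_apply]
  group

theorem minPer_pow_apply [Finite D] (φ : Perm D) (d : D) (i : ℕ) :
    Function.minimalPeriod φ ((φ ^ i) d) = Function.minimalPeriod φ d := by
  induction i with
  | zero => rfl
  | succ i ih => rw [pow_succ', Perm.mul_apply, minPer_apply, ih]

theorem cycProd_pow_one [Finite D] (φ : Perm D) (x : D → G) (d : D) (h : cycProd φ x d = 1)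
    (i : ℕ) : cycProd φ x ((φ ^ i) d) = 1 := by
  induction i with
  | zero => exact h
  | succ i ih =>
    rw [pow_succ', Perm.mul_apply, cycProd_apply, ih]
    group

end cyc

variable {P : Type} [Group P] {D : Type}

theorem ev_word {σ θ : Perm D} {h : D → P} {ty : D → Fin 3} (d : D) :
    ev ((List.range (Function.minimalPeriod (σ * θ) d)).map
      (fun i => (ty (((σ * θ) ^ i) d), lab σ h (((σ * θ) ^ i) d)))) =
      cycProd (σ * θ) (elt σ h ty) d := by
  unfold ev cycProd
  rw [List.map_map]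
  rfl

/-- passing from `(σ1, θ1)` back to `(σ, θ)` -/
theorem B2_step [DecidableEq D] {R : List (Rel P)} {σ θ σ1 θ1 : Perm D} {h : D → P}
    {ty : D → Fin 3} {kind : D → Option (ℕ × Bool × ℕ)} {d : D} {n : ℕ} (hn : 2 ≤ n)
    (hper : ((σ * θ) ^ n) d = d) (hmper : ∀ i, 0 < i → i < n → ((σ * θ) ^ i) d ≠ d)
    (hφ : σ1 * θ1 = swap d ((σ * θ) d) * (σ * θ)) (hσ1 : σ1 d = d) (hθ1 : θ1 d = d)
    (hlab : ∀ y, y ≠ d → y ≠ (σ * θ) d → lab σ1 h y = lab σ h y)
    (hconn : conn σ1 θ1 ≤ conn σ θ)
    (hres : ∃ σ' θ' : Perm D, IsPic R σ' θ' h ty kind ∧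
      (∀ z, (σ1 * θ1).SameCycle ((σ * θ) d) z → σ' z = z ∧ θ' z = z) ∧
      (∀ z, ¬ (σ1 * θ1).SameCycle ((σ * θ) d) z →
        (σ' * θ') z = (σ1 * θ1) z ∧ lab σ' h z = lab σ1 h z) ∧
      conn σ' θ' ≤ conn σ1 θ1) :
    ∃ σ' θ' : Perm D, IsPic R σ' θ' h ty kind ∧
      (∀ z, (σ * θ).SameCycle d z → σ' z = z ∧ θ' z = z) ∧
      (∀ z, ¬ (σ * θ).SameCycle d z → (σ' * θ') z = (σ * θ) z ∧ lab σ' h z = lab σ h z) ∧
      conn σ' θ' ≤ conn σ θ := by
  obtain ⟨σ', θ', hp', h1, h2, h3⟩ := hres
  obtain ⟨o1, o2⟩ := orb hn hper hmper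
  rw [← hφ] at o1 o2
  refine ⟨σ', θ', hp', ?_, ?_, h3.trans hconn⟩
  · intro z hz
    obtain ⟨i, hi, rfl⟩ := sc_pow hz (by omega) hper
    rcases Nat.eq_zero_or_pos i with rfl | hi0
    · simp only [pow_zero, Perm.one_apply]
      exact ⟨isolated hσ1 hθ1 (h3 (conn_left σ' θ' d)),
        isolated hσ1 hθ1 (h3 (conn_right σ' θ' d))⟩
    · apply h1
      refine ⟨((i - 1 : ℕ) : ℤ), ?_⟩
      rw [zpow_natCast, o1 (i - 1) (by omega)]
      congr 2
      omega
  · intro z hz
    have hz1 : ¬ (σ1 * θ1).SameCycle ((σ * θ) d) z := by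
      intro h4
      obtain ⟨k, hk, rfl⟩ := sc_pow h4 (by omega : 0 < n - 1) o2
      apply hz
      rw [o1 k (by omega)]
      exact ⟨((k + 1 : ℕ) : ℤ), by rw [zpow_natCast]⟩
    obtain ⟨h5, h6⟩ := h2 z hz1
    have hzd : z ≠ d := by
      rintro rfl; exact hz (Perm.SameCycle.refl _ _)
    have hzd2 : z ≠ (σ * θ) d := by
      rintro rfl; exact hz ⟨1, by simp⟩
    refine ⟨?_, h6.trans (hlab z hzd hzd2)⟩
    rw [h5, hφ, Perm.mul_apply]
    apply swap_apply_of_ne_of_ne
    · intro h7
      apply hz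
      rw [← h7]
      exact Perm.SameCycle.symm ⟨1, by simp⟩
    · intro h7
      exact hzd ((σ * θ).injective h7)

theorem B2 (hB1 : T_B1) (hB11 : T_B11) : T_B2 := by
  intro P _ R D _ _ σ θ h ty kind d hp hd hcyc
  suffices H : ∀ n, ∀ (σ θ : Perm D) (d : D), IsPic R σ θ h ty kind → kind d = none →
      Function.minimalPeriod (σ * θ) d = n + 1 → cycProd (σ * θ) (elt σ h ty) d = 1 →
      ∃ σ' θ' : Perm D, IsPic R σ' θ' h ty kind ∧
        (∀ z, (σ * θ).SameCycle d z → σ' z = z ∧ θ' z = z) ∧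
        (∀ z, ¬ (σ * θ).SameCycle d z → (σ' * θ') z = (σ * θ) z ∧ lab σ' h z = lab σ h z) ∧
        conn σ' θ' ≤ conn σ θ by
    exact H _ σ θ d hp hd (Nat.succ_pred_eq_of_pos (minPer_pos (σ * θ) d)).symm hcyc
  intro n
  induction n with
  | zero =>
    intro σ θ d hp hd hmp _
    have hfix : (σ * θ) d = d := by
      have := minPer_pow (σ * θ) d
      rw [hmp] at this
      simpa using this
    obtain ⟨σ', θ', hp', h1, h2, h3, h4, h5⟩ := (hB1 P R D σ θ h ty kind d hp hd).2.2 hfix
    refine ⟨σ', θ', hp', ?_, ?_, h5⟩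
    · intro z hz
      have : z = d := (hz.eq_of_left hfix).symm
      rw [this]; exact ⟨h2, h3⟩
    · intro z hz
      refine ⟨by rw [h1], h4 z ?_⟩
      rintro rfl
      exact hz (Perm.SameCycle.refl _ _)
  | succ n ih =>
    intro σ θ d hp hd hmp hcyc
    -- the two cases
    have hcase : ∃ i, lab σ h (((σ * θ) ^ i) d) = 1 ∨
        ty ((σ * θ) (((σ * θ) ^ i) d)) = ty (((σ * θ) ^ i) d) := by
      by_contra hcon
      push Not at hcon
      have h1 := (hB11 P).1 ((List.range (Function.minimalPeriod (σ * θ) d)).map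
        (fun i => (ty (((σ * θ) ^ i) d), lab σ h (((σ * θ) ^ i) d)))) ?_ (by
          rw [ev_word]; exact hcyc)
      · have h2 := congrArg List.length h1
        rw [List.length_map, List.length_range, hmp] at h2
        simp at h2
      · constructor
        · intro x hx
          obtain ⟨i, _, rfl⟩ := List.mem_map.1 hx
          exact (hcon i).1
        · rw [List.isChain_iff_getElem]
          intro i hi
          rw [List.getElem_map, List.getElem_map, List.getElem_range, List.getElem_range]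
          have := (hcon i).2
          rw [← Perm.mul_apply, ← pow_succ'] at this
          exact fun h3 => this h3.symm
    obtain ⟨i, hi⟩ := hcase
    have hd' : kind (((σ * θ) ^ i) d) = none := hole_pow hp hd i
    have hmp' : Function.minimalPeriod (σ * θ) (((σ * θ) ^ i) d) = n + 2 := by
      rw [minPer_pow_apply, hmp]
    have hcyc' := cycProd_pow_one (σ * θ) (elt σ h ty) d hcyc i
    have hsc : ∀ z, (σ * θ).SameCycle d z ↔ (σ * θ).SameCycle (((σ * θ) ^ i) d) z := by
      intro z
      have h0 : (σ * θ).SameCycle d (((σ * θ) ^ i) d) := ⟨i, by rw [zpow_natCast]⟩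
      exact ⟨fun h1 => h0.symm.trans h1, fun h1 => h0.trans h1⟩
    simp only [hsc]
    set d' := ((σ * θ) ^ i) d with hd'def
    clear_value d'
    have hper := minPer_pow (σ * θ) d'
    have hmper := minPer_ne (σ * θ) d'
    rw [hmp'] at hper hmper
    have hne : (σ * θ) d' ≠ d' := by
      have := hmper 1 (by omega) (by omega)
      rwa [pow_one] at this
    obtain ⟨o1, o2⟩ := orb (by omega : 2 ≤ n + 2) hper hmper
    -- the product of the cycle
    have hprod : elt σ h ty d' * (elt σ h ty ((σ * θ) d') *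
        ((List.range n).map (fun k => elt σ h ty (((σ * θ) ^ (k + 2)) d'))).prod) = 1 := by
      have h1 := hcyc'
      unfold cycProd at h1
      rw [hmp', range_prod_succ', range_prod_succ'] at h1
      simpa using h1
    have hmin1 : ∀ σ1 θ1 : Perm D, σ1 * θ1 = swap d' ((σ * θ) d') * (σ * θ) →
        Function.minimalPeriod (σ1 * θ1) ((σ * θ) d') = n + 1 := by
      intro σ1 θ1 hφ
      rw [← hφ] at o1 o2
      refine minPer_eq (by omega) o2 ?_
      intro k hk hk2 h1
      rw [o1 k (by omega), pow_succ', Perm.mul_apply] at h1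
      exact hmper k hk (by omega) ((σ * θ).injective h1)
    have hcyc1 : ∀ σ1 θ1 : Perm D, σ1 * θ1 = swap d' ((σ * θ) d') * (σ * θ) →
        (∀ y, y ≠ d' → y ≠ (σ * θ) d' → lab σ1 h y = lab σ h y) →
        cycProd (σ1 * θ1) (elt σ1 h ty) ((σ * θ) d') = elt σ1 h ty ((σ * θ) d') *
        ((List.range n).map (fun k => elt σ h ty (((σ * θ) ^ (k + 2)) d'))).prod := by
      intro σ1 θ1 hφ hlab
      unfold cycProd
      rw [hmin1 σ1 θ1 hφ, range_prod_succ']
      rw [← hφ] at o1 o2
      simp only [pow_zero, Perm.one_apply]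
      congr 2
      apply List.map_congr_left
      intro k hk
      have hk' := List.mem_range.1 hk
      rw [o1 (k + 1) (by omega)]
      unfold elt
      rw [hlab _ (hmper _ (by omega) (by omega))]
      intro h1
      rw [pow_succ', Perm.mul_apply] at h1
      exact hmper (k + 1) (by omega) (by omega) ((σ * θ).injective h1)
    rcases hi with hi | hi
    · -- trivial letter
      have hh : h (σ⁻¹ d') = h d' := by
        unfold lab at hi
        exact inv_mul_eq_one.1 hi
      obtain ⟨σ1, θ1, hp1, hφ, hσ1, hθ1, hlab, hconn⟩ :=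
        (hB1 P R D σ θ h ty kind d' hp hd').1 hne hh
      refine B2_step (by omega) hper hmper hφ hσ1 hθ1 (fun y hy _ => hlab y hy) hconn
        (ih σ1 θ1 _ hp1 (hole_next hp hd') (hmin1 σ1 θ1 hφ) ?_)
      rw [hcyc1 σ1 θ1 hφ (fun y hy _ => hlab y hy)]
      have h1 : elt σ1 h ty ((σ * θ) d') = elt σ h ty ((σ * θ) d') := by
        unfold elt
        rw [hlab _ hne]
      rw [h1]
      have h2 : elt σ h ty d' = 1 := by
        unfold elt
        rw [hi, map_one]
      rw [h2, one_mul] at hprod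
      exact hprod
    · -- two consecutive letters of the same type
      obtain ⟨σ1, θ1, hp1, hφ, hσ1, hθ1, hlab, hlab2, hconn⟩ :=
        (hB1 P R D σ θ h ty kind d' hp hd').2.1 hne hi
      refine B2_step (by omega) hper hmper hφ hσ1 hθ1 hlab hconn
        (ih σ1 θ1 _ hp1 (hole_next hp hd') (hmin1 σ1 θ1 hφ) ?_)
      rw [hcyc1 σ1 θ1 hφ hlab]
      have h1 : elt σ1 h ty ((σ * θ) d') = elt σ h ty d' * elt σ h ty ((σ * θ) d') := by
        unfold elt
        rw [hlab2, map_mul, hi]
      rw [h1, mul_assoc]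
      exact hprod

end Pool.Agent.H47.TF
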