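import Pool.Agent.H47.TF.Orb

/-!
# MP_7a929c_al : module B7 (operations on hole words)
-/

set_option autoImplicit false

namespace Pool.Agent.H47.TF

open Equiv Pool.Agent.H7.TF

variable {P : Type} [Group P] {D : Type}

/-- rotation of the base point of a hole -/
theorem holeAt_rotate {R : List (Rel P)} {σ θ : Perm D} {h : D → P} {ty : D → Fin 3}
    {kind : D → Option (ℕ × Bool × ℕ)} {d0 : D} {X Y : List (Fin 3 × P)}
    (hp : IsPic R σ θ h ty kind) (ha : HoleAt σ θ h ty kind d0 (X ++ Y)) :
    HoleAt σ θ h ty kind (((σ * θ) ^ X.length) d0) (Y ++ X) := by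
  set φ := σ * θ with hφ
  have hlen : (Y ++ X).length = (X ++ Y).length := by
    rw [List.length_append, List.length_append, add_comm]
  have hcomm : ∀ i, (φ ^ i) ((φ ^ X.length) d0) = (φ ^ X.length) ((φ ^ i) d0) := by
    intro i
    rw [← Perm.mul_apply, ← Perm.mul_apply, ← pow_add, ← pow_add, add_comm]
  refine ⟨?_, ?_, ?_, ?_, ?_, ?_⟩
  · intro h1
    apply ha.ne
    rw [List.append_eq_nil_iff] at h1 ⊢
    exact ⟨h1.2, h1.1⟩
  · rw [hlen, hcomm, ha.per]
  · intro i hi hi2 h1
    rw [hcomm] at h1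
    exact ha.mper i hi (hlen ▸ hi2) ((φ ^ X.length).injective h1)
  · intro i hi
    rw [List.length_append] at hi
    have hpow : (φ ^ i) ((φ ^ X.length) d0) = (φ ^ (X.length + i)) d0 := by
      rw [hcomm, ← Perm.mul_apply, ← pow_add]
    rw [hpow]
    by_cases hiY : i < Y.length
    · have h1 := ha.rd (X.length + i) (by rw [List.length_append]; omega)
      rw [List.getElem?_append_right (by omega)] at h1
      rw [List.getElem?_append_left hiY]
      rw [show X.length + i - X.length = i by omega] at h1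
      exact h1
    · have h1 := ha.rd (i - Y.length) (by rw [List.length_append]; omega)
      rw [List.getElem?_append_left (by omega)] at h1
      rw [List.getElem?_append_right (by omega), h1]
      have h2 : (φ ^ (X.length + i)) d0 = (φ ^ (i - Y.length)) d0 := by
        have h3 : X.length + i = (i - Y.length) + (X ++ Y).length := by
          rw [List.length_append]; omega
        rw [h3, pow_add, Perm.mul_apply, ha.per]
      rw [h2]
  · exact hole_pow hp ha.hole _
  · intro d h1 h2
    have h3 := ha.only d ((conn σ θ).trans (conn_pow σ θ d0 X.length) h1) h2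
    exact Perm.SameCycle.trans (Perm.SameCycle.symm ⟨X.length, by rw [zpow_natCast]⟩) h3

/-- the hole after removing the base point (common part of B7 (2) and (3)) -/
theorem holeAt_remove [DecidableEq D] {R : List (Rel P)} {σ θ σ' θ' : Perm D} {h : D → P}
    {ty : D → Fin 3} {kind : D → Option (ℕ × Bool × ℕ)} {d0 : D} {X : List (Fin 3 × P)}
    {n : ℕ} (hp : IsPic R σ θ h ty kind) (hn : 2 ≤ n) (hd0 : kind d0 = none)
    (hper : ((σ * θ) ^ n) d0 = d0) (hmper : ∀ i, 0 < i → i < n → ((σ * θ) ^ i) d0 ≠ d0)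
    (honly : ∀ d, conn σ θ d0 d → kind d = none → (σ * θ).SameCycle d0 d)
    (hφ : σ' * θ' = swap d0 ((σ * θ) d0) * (σ * θ)) (hσ' : σ' d0 = d0) (hθ' : θ' d0 = d0)
    (hconn : conn σ' θ' ≤ conn σ θ) (hX : X.length + 1 = n)
    (hrd : ∀ i, i < X.length → X[i]? =
      some (ty (((σ * θ) ^ (i + 1)) d0), lab σ' h (((σ * θ) ^ (i + 1)) d0))) :
    HoleAt σ' θ' h ty kind ((σ * θ) d0) X := by
  obtain ⟨o1, o2⟩ := orb hn hper hmper
  rw [← hφ] at o1 o2
  have hne1 : (σ * θ) d0 ≠ d0 := by
    have := hmper 1 (by omega) (by omega)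
    rwa [pow_one] at this
  refine ⟨?_, ?_, ?_, ?_, ?_, ?_⟩
  · rintro rfl
    simp at hX
    omega
  · have : X.length = n - 1 := by omega
    rw [this]; exact o2
  · intro i hi hi2 h1
    rw [o1 i (by omega), pow_succ', Perm.mul_apply] at h1
    exact hmper i hi (by omega) ((σ * θ).injective h1)
  · intro i hi
    rw [o1 i (by omega)]
    exact hrd i hi
  · exact hole_next hp hd0
  · intro d h1 h2
    have h3 : conn σ θ d0 d := (conn σ θ).trans (conn_face σ θ d0) (hconn h1)
    obtain ⟨i, hi, rfl⟩ := sc_pow (honly d h3 h2) (by omega) hper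
    rcases Nat.eq_zero_or_pos i with rfl | hi0
    · exfalso
      have h4 : conn σ' θ' d0 ((σ * θ) d0) := (conn σ' θ').symm h1
      exact hne1 (isolated hσ' hθ' h4)
    · refine ⟨((i - 1 : ℕ) : ℤ), ?_⟩
      rw [zpow_natCast, o1 (i - 1) (by omega)]
      congr 2
      omega

theorem B7 (hB1 : T_B1) : T_B7 := by
  intro P _ R
  refine ⟨?_, ?_, ?_⟩
  · rintro X Y ⟨D, iF, iD, σ, θ, h, ty, kind, d0, hp, ha⟩
    exact ⟨D, iF, iD, σ, θ, h, ty, kind, _, hp, holeAt_rotate hp ha⟩
  · rintro i Y hY ⟨D, iF, iD, σ, θ, h, ty, kind, d0, hp, ha⟩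
    have hYl : 0 < Y.length := List.length_pos_of_ne_nil hY
    have hlen : ((i, (1 : P)) :: Y).length = Y.length + 1 := rfl
    have hne1 : (σ * θ) d0 ≠ d0 := by
      have := ha.mper 1 (by omega) (by rw [hlen]; omega)
      rwa [pow_one] at this
    have h0 := ha.rd 0 (by rw [hlen]; omega)
    simp only [List.getElem?_cons_zero, pow_zero, Perm.one_apply, Option.some.injEq,
      Prod.mk.injEq] at h0
    have hh : h (σ⁻¹ d0) = h d0 := by
      have h1 := h0.2
      unfold lab at h1
      exact (inv_mul_eq_one.1 h1.symm)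
    obtain ⟨σ', θ', hp', hφ, hσ', hθ', hlab, hconn⟩ :=
      (hB1 P R D σ θ h ty kind d0 hp ha.hole).1 hne1 hh
    refine ⟨D, iF, iD, σ', θ', h, ty, kind, (σ * θ) d0, hp', ?_⟩
    have hper := ha.per
    have hmper := ha.mper
    rw [hlen] at hper hmper
    refine holeAt_remove hp (by omega : 2 ≤ Y.length + 1) ha.hole hper hmper ha.only hφ hσ' hθ'
      hconn rfl ?_
    intro k hk
    have h1 := ha.rd (k + 1) (by rw [hlen]; omega)
    rw [List.getElem?_cons_succ] at h1
    rw [h1, hlab _ (hmper (k + 1) (by omega) (by omega))]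
  · rintro i x y Y ⟨D, iF, iD, σ, θ, h, ty, kind, d0, hp, ha⟩
    have hlen : ((i, x) :: (i, y) :: Y).length = Y.length + 2 := rfl
    have hne1 : (σ * θ) d0 ≠ d0 := by
      have := ha.mper 1 (by omega) (by rw [hlen]; omega)
      rwa [pow_one] at this
    have h0 := ha.rd 0 (by rw [hlen]; omega)
    have h1 := ha.rd 1 (by rw [hlen]; omega)
    simp only [List.getElem?_cons_zero, pow_zero, Perm.one_apply, Option.some.injEq,
      Prod.mk.injEq] at h0
    rw [List.getElem?_cons_succ, List.getElem?_cons_zero, pow_one, Option.some.injEq,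
      Prod.mk.injEq] at h1
    obtain ⟨σ', θ', hp', hφ, hσ', hθ', hlab, hlab2, hconn⟩ :=
      (hB1 P R D σ θ h ty kind d0 hp ha.hole).2.1 hne1 (h1.1.symm.trans h0.1)
    refine ⟨D, iF, iD, σ', θ', h, ty, kind, (σ * θ) d0, hp', ?_⟩
    have hper := ha.per
    have hmper := ha.mper
    rw [hlen] at hper hmper
    refine holeAt_remove hp (by omega : 2 ≤ Y.length + 2) ha.hole hper hmper ha.only hφ hσ' hθ'
      hconn rfl ?_
    intro k hk
    rcases Nat.eq_zero_or_pos k with rfl | hk0
    · rw [List.getElem?_cons_zero, zero_add, pow_one, hlab2, ← h1.1, ← h0.2, ← h1.2]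
    · have h2 := ha.rd (k + 1) (by rw [hlen]; simp at hk; omega)
      obtain ⟨k, rfl⟩ : ∃ k', k = k' + 1 := ⟨k - 1, by omega⟩
      rw [List.getElem?_cons_succ, List.getElem?_cons_succ] at h2
      simp only [List.length_cons] at hk
      rw [List.getElem?_cons_succ, h2, hlab _ (hmper _ (by omega) (by omega))]
      intro h3
      rw [pow_succ', Perm.mul_apply] at h3
      exact hmper (k + 1) (by omega) (by omega) ((σ * θ).injective h3)

end Pool.Agent.H47.TF
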