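import Pool.Agent.H47.TF.B1

/-!
# MP_7a929c_al : orbits of permutations after removing a point from a cycle
-/

set_option autoImplicit false

namespace Pool.Agent.H47.TF

open Equiv Pool.Agent.H7.TF

variable {P : Type} [Group P] {D : Type}

/-- the cycle of `x` consists of the first `n` iterates if `φ ^ n` fixes `x` -/
theorem sc_pow {φ : Perm D} {x y : D} (h : φ.SameCycle x y) {n : ℕ} (hn : 0 < n)
    (hx : (φ ^ n) x = x) : ∃ i < n, (φ ^ i) x = y := by
  obtain ⟨k, hk⟩ := h
  have hn' : (n : ℤ) ≠ 0 := by exact_mod_cast hn.ne'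
  have h1 : 0 ≤ k % n := Int.emod_nonneg _ hn'
  have h2 : k % n < n := Int.emod_lt_of_pos _ (by exact_mod_cast hn)
  refine ⟨(k % n).toNat, ?_, ?_⟩
  · have : ((k % n).toNat : ℤ) < n := by rw [Int.toNat_of_nonneg h1]; exact h2
    exact_mod_cast this
  · have h3 : φ ^ (k % n).toNat = φ ^ (k % n) := by
      rw [← zpow_natCast, Int.toNat_of_nonneg h1]
    rw [h3]
    have h4 : φ ^ k = φ ^ (k % n) * (φ ^ n) ^ (k / n) := by
      rw [← zpow_natCast φ n, ← zpow_mul, ← zpow_add, Int.emod_add_mul_ediv]
    rw [h4, Perm.mul_apply] at hk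
    have h5 : ((φ ^ n) ^ (k / n)) x = x := Perm.zpow_apply_eq_self_of_apply_eq_self hx _
    rw [h5] at hk
    exact hk

/-- a dart fixed by both permutations is isolated -/
theorem isolated {σ θ : Perm D} {d z : D} (h1 : σ d = d) (h2 : θ d = d)
    (h : conn σ θ d z) : z = d := by
  have hle : conn σ θ ≤ Setoid.ker (fun x => x = d) := by
    refine sup_le ?_ ?_
    · intro x y hxy
      have hxy' : σ.SameCycle x y := hxy
      show (x = d) = (y = d)
      apply propext
      constructor
      · rintro rfl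
        exact (hxy'.eq_of_left h1).symm
      · rintro rfl
        exact hxy'.eq_of_right h1
    · intro x y hxy
      have hxy' : θ.SameCycle x y := hxy
      show (x = d) = (y = d)
      apply propext
      constructor
      · rintro rfl
        exact (hxy'.eq_of_left h2).symm
      · rintro rfl
        exact hxy'.eq_of_right h2
  have h3 : (d = d) = (z = d) := hle h
  rw [← h3]

theorem conn_left (σ θ : Perm D) (x : D) : conn σ θ x (σ x) :=
  (le_sup_left : Perm.SameCycle.setoid σ ≤ conn σ θ) ⟨1, by simp⟩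

theorem conn_right (σ θ : Perm D) (x : D) : conn σ θ x (θ x) :=
  (le_sup_right : Perm.SameCycle.setoid θ ≤ conn σ θ) ⟨1, by simp⟩

theorem conn_face (σ θ : Perm D) (x : D) : conn σ θ x ((σ * θ) x) :=
  (conn σ θ).trans (conn_right σ θ x) (conn_left σ θ (θ x))

theorem conn_pow (σ θ : Perm D) (x : D) (i : ℕ) : conn σ θ x (((σ * θ) ^ i) x) := by
  induction i with
  | zero => exact (conn σ θ).refl _
  | succ i ih =>
    rw [pow_succ', Perm.mul_apply]
    exact (conn σ θ).trans ih (conn_face σ θ _)

/-- removing the point `d0` from its cycle -/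
theorem orb [DecidableEq D] {φ : Perm D} {d0 : D} {n : ℕ} (hn : 2 ≤ n)
    (hper : (φ ^ n) d0 = d0) (hmper : ∀ i, 0 < i → i < n → (φ ^ i) d0 ≠ d0) :
    (∀ i, i + 1 < n → ((swap d0 (φ d0) * φ) ^ i) (φ d0) = (φ ^ (i + 1)) d0) ∧
      ((swap d0 (φ d0) * φ) ^ (n - 1)) (φ d0) = φ d0 := by
  have key : ∀ i, i + 1 < n → ((swap d0 (φ d0) * φ) ^ i) (φ d0) = (φ ^ (i + 1)) d0 := by
    intro i
    induction i with
    | zero => intro _; simp
    | succ i ih =>
      intro hi
      rw [pow_succ', Perm.mul_apply, ih (by omega), Perm.mul_apply, ← Perm.mul_apply φ,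
        ← pow_succ']
      apply swap_apply_of_ne_of_ne
      · exact hmper _ (by omega) (by omega)
      · intro h1
        rw [pow_succ', Perm.mul_apply] at h1
        exact hmper _ (by omega) (by omega) (φ.injective h1)
  refine ⟨key, ?_⟩
  have h1 : n - 1 = (n - 2) + 1 := by omega
  rw [h1, pow_succ', Perm.mul_apply, key (n - 2) (by omega), Perm.mul_apply,
    ← Perm.mul_apply φ, ← pow_succ']
  have h2 : n - 2 + 1 + 1 = n := by omega
  rw [h2, hper, swap_apply_left]

end Pool.Agent.H47.TF
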